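import Pool.Agent.W937.FG.Stm

/-!
Project FG: forbidding grammars simulate automata with decrement errors.
-/

set_option autoImplicit false

namespace Pool.Agent.W924.FG

open Relation Function Pool.Agent.W937.FG

/-- nonterminals -/
inductive NT (K Q : Type) : Type
  | st (q : Q)
  | d1 (q : Q) (i : K) (q' : Q)
  | d2 (q : Q) (i : K) (q' : Q)
  | ctr (i : K)
  | lk (i : K)

/-- tokens -/
def Tok {K Q : Type} : NT K Q → Prop
  | .st _ => True
  | .d1 _ _ _ => True
  | .d2 _ _ _ => True
  | .ctr _ => False
  | .lk _ => False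

/-- counters and locked counters -/
def cs {K Q : Type} : K × Bool → NT K Q
  | (i, false) => .ctr i
  | (i, true) => .lk i

lemma not_tok_cs {K Q : Type} (p : K × Bool) : ¬ Tok (cs p : NT K Q) := by
  obtain ⟨i, b⟩ := p
  cases b <;> simp [cs, Tok]

lemma cs_inj {K Q : Type} {p p' : K × Bool} (h : (cs p : NT K Q) = cs p') : p = p' := by
  obtain ⟨i, b⟩ := p
  obtain ⟨i', b'⟩ := p'
  cases b <;> cases b' <;> simp [cs] at h ⊢ <;> exact h

lemma exists_cs {K Q : Type} {A : NT K Q} (h : ¬ Tok A) : ∃ p, cs p = A := by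
  cases A with
  | st q => exact absurd trivial h
  | d1 q i q' => exact absurd trivial h
  | d2 q i q' => exact absurd trivial h
  | ctr i => exact ⟨(i, false), rfl⟩
  | lk i => exact ⟨(i, true), rfl⟩

/-- sentential forms -/
def frm {T K Q : Type} (w : List T) (t : NT K Q) (z : List (K × Bool)) :
    List (Symbol T (NT K Q)) :=
  w.map Symbol.terminal ++ Symbol.nonterminal t :: z.map fun p => Symbol.nonterminal (cs p)

lemma mem_frm {T K Q : Type} {w : List T} {t B : NT K Q} {z : List (K × Bool)} :
    Symbol.nonterminal B ∈ (frm w t z : List (Symbol T (NT K Q))) ↔ B = t ∨ ∃ p ∈ z, cs p = B := by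
  unfold frm
  rw [List.mem_append, List.mem_cons, List.mem_map, List.mem_map]
  constructor
  · rintro (⟨a, -, h⟩ | h | ⟨p, hp, h⟩)
    · cases h
    · exact Or.inl (Symbol.nonterminal.inj h)
    · exact Or.inr ⟨p, hp, Symbol.nonterminal.inj h⟩
  · rintro (rfl | ⟨p, hp, rfl⟩)
    · exact Or.inr (Or.inl rfl)
    · exact Or.inr (Or.inr ⟨p, hp, rfl⟩)

lemma decomp {T K Q : Type} {w : List T} {t A : NT K Q} {z : List (K × Bool)}
    {u v : List (Symbol T (NT K Q))} (h : frm w t z = u ++ [Symbol.nonterminal A] ++ v) :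
    (A = t ∧ u = w.map Symbol.terminal ∧ v = z.map fun p => Symbol.nonterminal (cs p)) ∨
    ∃ z1 p z2, z = z1 ++ p :: z2 ∧ cs p = A ∧
      u = w.map Symbol.terminal ++ Symbol.nonterminal t ::
        z1.map (fun p => Symbol.nonterminal (cs p)) ∧
      v = z2.map fun p => Symbol.nonterminal (cs p) := by
  unfold frm at h
  rw [List.append_assoc, List.singleton_append, List.append_eq_append_iff] at h
  rcases h with ⟨a', h1, h2⟩ | ⟨c', h1, h2⟩
  · cases a' with
    | nil =>
      rw [List.nil_append, List.cons.injEq] at h2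
      left
      refine ⟨(Symbol.nonterminal.inj h2.1).symm, ?_, h2.2.symm⟩
      rw [h1, List.append_nil]
    | cons b a'' =>
      rw [List.cons_append, List.cons.injEq] at h2
      right
      obtain ⟨z1, z2, h3, h4, h5⟩ := List.map_eq_append_iff.1 h2.2
      obtain ⟨p, z3, h6, h7, h8⟩ := List.map_eq_cons_iff.1 h5
      refine ⟨z1, p, z3, ?_, Symbol.nonterminal.inj h7, ?_, h8.symm⟩
      · rw [h3, h6]
      · rw [h1, ← h2.1, ← h4]
  · cases c' with
    | nil =>
      rw [List.nil_append, List.cons.injEq] at h2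
      left
      refine ⟨Symbol.nonterminal.inj h2.1, ?_, h2.2⟩
      rw [h1, List.append_nil]
    | cons b c'' =>
      exfalso
      rw [List.cons_append, List.cons.injEq] at h2
      have h3 : b ∈ w.map (Symbol.terminal (N := NT K Q)) := by
        rw [h1]
        simp
      rw [← h2.1] at h3
      obtain ⟨a, -, ha⟩ := List.mem_map.1 h3
      cases ha

section

variable {T K Q : Type} [DecidableEq K] [Finite K] [Finite Q]

instance : Finite (NT K Q) := by
  let f : NT K Q → (Q ⊕ K ⊕ K) ⊕ ((Q × K × Q) ⊕ (Q × K × Q))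
    | .st q => Sum.inl (Sum.inl q)
    | .d1 q i q' => Sum.inr (Sum.inl (q, i, q'))
    | .d2 q i q' => Sum.inr (Sum.inr (q, i, q'))
    | .ctr i => Sum.inl (Sum.inr (Sum.inl i))
    | .lk i => Sum.inl (Sum.inr (Sum.inr i))
  have hf : Function.Injective f := by
    intro x y h
    cases x <;> cases y <;> simp [f] at h <;> simp [h]
  exact Finite.of_injective f hf

/-- the finite set of the nonterminals with a property -/
noncomputable def fs (p : NT K Q → Prop) : Finset (NT K Q) := (Set.toFinite {A | p A}).toFinset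

omit [DecidableEq K] in
lemma mem_fs {p : NT K Q → Prop} {A : NT K Q} : A ∈ fs p ↔ p A := by
  simp [fs]

/-- the rules -/
inductive Ru (qf : Q) (δ : Set (Q × Op T K × Q)) : Rule T (NT K Q) → Prop
  | nop (q q' : Q) (h : (q, .nop, q') ∈ δ) :
      Ru qf δ (.st q, [Symbol.nonterminal (.st q')], fs fun _ => False)
  | inc (q : Q) (i : K) (q' : Q) (h : (q, .inc i, q') ∈ δ) :
      Ru qf δ (.st q, [Symbol.nonterminal (.st q'), Symbol.nonterminal (.ctr i)],
        fs fun _ => False)
  | zero (q : Q) (i : K) (q' : Q) (h : (q, .zero i, q') ∈ δ) :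
      Ru qf δ (.st q, [Symbol.nonterminal (.st q')], fs fun A => A = .ctr i)
  | out (q : Q) (c : T) (q' : Q) (h : (q, .out c, q') ∈ δ) :
      Ru qf δ (.st q, [Symbol.terminal c, Symbol.nonterminal (.st q')], fs fun _ => False)
  | dec (q : Q) (i : K) (q' : Q) (h : (q, .dec i, q') ∈ δ) :
      Ru qf δ (.st q, [Symbol.nonterminal (.d1 q i q')], fs fun _ => False)
  | lock (q : Q) (i : K) (q' : Q) (h : (q, .dec i, q') ∈ δ) :
      Ru qf δ (.ctr i, [Symbol.nonterminal (.lk i)],
        fs fun A => (Tok A ∧ A ≠ .d1 q i q') ∨ A = .lk i)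
  | d12 (q : Q) (i : K) (q' : Q) (h : (q, .dec i, q') ∈ δ) :
      Ru qf δ (.d1 q i q', [Symbol.nonterminal (.d2 q i q')], fs fun _ => False)
  | unlock (q : Q) (i : K) (q' : Q) (h : (q, .dec i, q') ∈ δ) :
      Ru qf δ (.lk i, [], fs fun A => Tok A ∧ A ≠ .d2 q i q')
  | dfin (q : Q) (i : K) (q' : Q) (h : (q, .dec i, q') ∈ δ) :
      Ru qf δ (.d2 q i q', [Symbol.nonterminal (.st q')], fs fun A => A = .lk i)
  | fin : Ru qf δ (.st qf, [], fs fun A => ¬ Tok A)

omit [DecidableEq K] in
lemma ru_finite (qf : Q) (δ : Set (Q × Op T K × Q)) (hδ : δ.Finite) :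
    {ρ : Rule T (NT K Q) | Ru qf δ ρ}.Finite := by
  haveI : Finite δ := hδ
  let g : δ × Fin 5 → Rule T (NT K Q) := fun x =>
    match x.1.1 with
    | (q, .nop, q') => (.st q, [Symbol.nonterminal (.st q')], fs fun _ => False)
    | (q, .inc i, q') => (.st q, [Symbol.nonterminal (.st q'), Symbol.nonterminal (.ctr i)],
        fs fun _ => False)
    | (q, .zero i, q') => (.st q, [Symbol.nonterminal (.st q')], fs fun A => A = .ctr i)
    | (q, .out c, q') => (.st q, [Symbol.terminal c, Symbol.nonterminal (.st q')],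
        fs fun _ => False)
    | (q, .dec i, q') => match x.2 with
      | 0 => (.st q, [Symbol.nonterminal (.d1 q i q')], fs fun _ => False)
      | 1 => (.ctr i, [Symbol.nonterminal (.lk i)],
        fs fun A => (Tok A ∧ A ≠ .d1 q i q') ∨ A = .lk i)
      | 2 => (.d1 q i q', [Symbol.nonterminal (.d2 q i q')], fs fun _ => False)
      | 3 => (.lk i, [], fs fun A => Tok A ∧ A ≠ .d2 q i q')
      | 4 => (.d2 q i q', [Symbol.nonterminal (.st q')], fs fun A => A = .lk i)
  refine (((Set.finite_range g).insert
    ((.st qf, [], fs fun A => ¬ Tok A) : Rule T (NT K Q))).subset ?_)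
  intro ρ hρ
  cases hρ with
  | nop q q' h => exact Or.inr ⟨(⟨_, h⟩, 0), rfl⟩
  | inc q i q' h => exact Or.inr ⟨(⟨_, h⟩, 0), rfl⟩
  | zero q i q' h => exact Or.inr ⟨(⟨_, h⟩, 0), rfl⟩
  | out q c q' h => exact Or.inr ⟨(⟨_, h⟩, 0), rfl⟩
  | dec q i q' h => exact Or.inr ⟨(⟨_, h⟩, 0), rfl⟩
  | lock q i q' h => exact Or.inr ⟨(⟨_, h⟩, 1), rfl⟩
  | d12 q i q' h => exact Or.inr ⟨(⟨_, h⟩, 2), rfl⟩
  | unlock q i q' h => exact Or.inr ⟨(⟨_, h⟩, 3), rfl⟩
  | dfin q i q' h => exact Or.inr ⟨(⟨_, h⟩, 4), rfl⟩
  | fin => exact Or.inl rfl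

omit [Finite K] [Finite Q] in
/-- a run followed by one step -/
lemma path_snoc {δ : Set (Q × Op T K × Q)} {q q' q'' : Q} {o : Op T K} {s s' s'' : K → ℕ}
    {w x : List T} (h : Path true δ q s w q' s') (hδ : (q', o, q'') ∈ δ)
    (h1 : ExecO true o s' x s'') : Path true δ q s (w ++ x) q'' s'' := by
  induction h with
  | refl q s =>
    have := Path.step hδ h1 (Pool.Agent.W937.FG.Path.refl (e := true) (δ := δ) q'' s'')
    rwa [List.append_nil] at this
  | step hδ' h1' h2 ih =>
    rw [List.append_assoc]
    exact Path.step hδ' h1' (ih hδ h1)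

/-- number of the counters `j` -/
def cC (z : List (K × Bool)) (j : K) : ℕ := z.count (j, false)

/-- number of the counters `j`, locked or not -/
def tot (z : List (K × Bool)) (j : K) : ℕ := z.count (j, false) + z.count (j, true)

/-- no lock -/
def NL (z : List (K × Bool)) : Prop := ∀ j, (j, true) ∉ z

/-- exactly one lock -/
def OL (i : K) (z : List (K × Bool)) : Prop := z.count (i, true) = 1 ∧ ∀ j, j ≠ i → (j, true) ∉ z

omit [Finite K] in
lemma tot_of_NL {z : List (K × Bool)} (h : NL z) : tot z = cC z := by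
  funext j
  unfold tot cC
  rw [List.count_eq_zero_of_not_mem (h j), add_zero]

/-- the invariant -/
def Gd (q0 : Q) (δ : Set (Q × Op T K × Q)) (w : List T) (z : List (K × Bool)) :
    NT K Q → Prop
  | .st q => NL z ∧ Path true δ q0 (fun _ => 0) w q (cC z)
  | .d1 q i q' => (q, .dec i, q') ∈ δ ∧ (NL z ∨ OL i z) ∧ Path true δ q0 (fun _ => 0) w q (tot z)
  | .d2 q i q' => (q, .dec i, q') ∈ δ ∧
      ((NL z ∧ ∃ s, Path true δ q0 (fun _ => 0) w q s ∧
        ExecO true (.dec i : Op T K) s [] (cC z)) ∨
      (OL i z ∧ Path true δ q0 (fun _ => 0) w q (tot z)))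
  | .ctr _ => False
  | .lk _ => False

/-- the invariant -/
def Inv (q0 qf : Q) (δ : Set (Q × Op T K × Q)) (α : List (Symbol T (NT K Q))) : Prop :=
  (∃ w t z, α = frm w t z ∧ Gd q0 δ w z t) ∨
  ∃ w : List T, α = w.map Symbol.terminal ∧ Path true δ q0 (fun _ => 0) w qf (fun _ => 0)

omit [Finite K] [Finite Q] in
lemma gd_tok {q0 : Q} {δ : Set (Q × Op T K × Q)} {w : List T} {z : List (K × Bool)}
    {t : NT K Q} (h : Gd q0 δ w z t) : Tok t := by
  cases t with
  | st q => trivial
  | d1 q i q' => trivial
  | d2 q i q' => trivial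
  | ctr i => exact h.elim
  | lk i => exact h.elim

lemma inv_step {q0 qf : Q} {δ : Set (Q × Op T K × Q)} {α β : List (Symbol T (NT K Q))}
    (hα : Inv q0 qf δ α) (h : Step {ρ | Ru qf δ ρ} α β) : Inv q0 qf δ β := by
  obtain ⟨u, v, A, x, F, hρ, h1, h2, h3⟩ := h
  rcases hα with ⟨w, t, z, h4, hG⟩ | ⟨w, h4, -⟩
  swap
  · exfalso
    have : Symbol.nonterminal A ∈ w.map (Symbol.terminal (N := NT K Q)) := by
      rw [← h4, h1]
      simp
    obtain ⟨a, -, ha⟩ := List.mem_map.1 this
    cases ha
  have hTt := gd_tok hG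
  have hmem : ∀ B ∈ F, ¬ (B = t ∨ ∃ p ∈ z, cs p = B) := by
    intro B hB hB'
    apply h3 B hB
    rw [h4, mem_frm]
    exact hB'
  have hd := decomp (h4.symm.trans h1)
  -- the two cases
  have htok : Tok A → A = t ∧ β = w.map Symbol.terminal ++ (x ++ z.map fun p =>
      Symbol.nonterminal (cs p)) := by
    intro hA
    rcases hd with ⟨e1, e2, e3⟩ | ⟨z1, p, z2, -, e2, -, -⟩
    · refine ⟨e1, ?_⟩
      rw [h2, e2, e3, List.append_assoc]
    · exact absurd (e2 ▸ hA) (not_tok_cs p)
  have hctr : ∀ p : K × Bool, A = cs p → ∃ z1 z2, z = z1 ++ p :: z2 ∧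
      β = w.map Symbol.terminal ++ Symbol.nonterminal t ::
        (z1.map (fun p => Symbol.nonterminal (cs p)) ++ (x ++
          z2.map fun p => Symbol.nonterminal (cs p))) := by
    intro p hA
    rcases hd with ⟨e1, e2, e3⟩ | ⟨z1, p', z2, e1, e2, e3, e4⟩
    · rw [e1] at hA
      rw [hA] at hTt
      exact absurd hTt (not_tok_cs p)
    · have : p' = p := cs_inj (e2.trans hA)
      subst this
      refine ⟨z1, z2, e1, ?_⟩
      rw [h2, e3, e4]
      simp
  clear hd h1 h2 h3
  cases hρ with
  | nop q q' h =>
    obtain ⟨rfl, hβ⟩ := htok trivial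
    obtain ⟨hN, hP⟩ := hG
    refine Or.inl ⟨w, .st q', z, hβ, hN, ?_⟩
    have := path_snoc hP h ⟨rfl, rfl⟩
    rwa [List.append_nil] at this
  | inc q i q' h =>
    obtain ⟨rfl, hβ⟩ := htok trivial
    obtain ⟨hN, hP⟩ := hG
    refine Or.inl ⟨w, .st q', (i, false) :: z, hβ, ?_, ?_⟩
    · intro j hj
      rcases List.mem_cons.1 hj with hj | hj
      · simp at hj
      · exact hN j hj
    · have := path_snoc hP h (x := []) (s'' := cC ((i, false) :: z)) ⟨rfl, ?_⟩
      · rwa [List.append_nil] at this
      · funext j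
        unfold cC
        by_cases hj : j = i
        · subst hj
          rw [Function.update_self, List.count_cons_self]
        · rw [Function.update_of_ne hj, List.count_cons_of_ne]
          intro he
          exact hj (Prod.ext_iff.1 he).1.symm
  | zero q i q' h =>
    obtain ⟨rfl, hβ⟩ := htok trivial
    obtain ⟨hN, hP⟩ := hG
    refine Or.inl ⟨w, .st q', z, hβ, hN, ?_⟩
    have := path_snoc hP h (x := []) (s'' := cC z) ⟨rfl, ?_, rfl⟩
    · rwa [List.append_nil] at this
    · unfold cC
      refine List.count_eq_zero_of_not_mem fun hi => ?_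
      exact hmem _ (mem_fs.2 rfl) (Or.inr ⟨_, hi, rfl⟩)
  | out q c q' h =>
    obtain ⟨rfl, hβ⟩ := htok trivial
    obtain ⟨hN, hP⟩ := hG
    refine Or.inl ⟨w ++ [c], .st q', z, ?_, hN, path_snoc hP h ⟨rfl, rfl⟩⟩
    rw [hβ]
    simp [frm]
  | dec q i q' h =>
    obtain ⟨rfl, hβ⟩ := htok trivial
    obtain ⟨hN, hP⟩ := hG
    refine Or.inl ⟨w, .d1 q i q', z, hβ, h, Or.inl hN, ?_⟩
    rw [tot_of_NL hN]
    exact hP
  | lock q i q' h =>
    obtain ⟨z1, z2, hz, hβ⟩ := hctr (i, false) rfl
    have ht : t = .d1 q i q' := by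
      by_contra hne
      exact hmem t (mem_fs.2 (Or.inl ⟨hTt, hne⟩)) (Or.inl rfl)
    subst ht
    obtain ⟨-, hN, hP⟩ := hG
    have hi : (i, true) ∉ z := fun hi => hmem _ (mem_fs.2 (Or.inr rfl)) (Or.inr ⟨_, hi, rfl⟩)
    have hN' : NL z := by
      rcases hN with hN | hN
      · exact hN
      · have := hN.1
        rw [List.count_eq_zero_of_not_mem hi] at this
        exact absurd this (by norm_num)
    refine Or.inl ⟨w, .d1 q i q', z1 ++ (i, true) :: z2, ?_, h, Or.inr ⟨?_, ?_⟩, ?_⟩
    · rw [hβ]
      simp [frm, cs]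
    · have h5 : z.count (i, true) = 0 := List.count_eq_zero_of_not_mem hi
      rw [hz] at h5
      rw [List.count_append, List.count_cons_self]
      rw [List.count_append, List.count_cons_of_ne (by simp)] at h5
      omega
    · intro j hj hm
      apply hN' j
      rw [hz]
      rw [List.mem_append, List.mem_cons] at hm ⊢
      rcases hm with hm | hm | hm
      · exact Or.inl hm
      · exact absurd (Prod.ext_iff.1 hm).1 hj
      · exact Or.inr (Or.inr hm)
    · have : tot (z1 ++ (i, true) :: z2) = tot z := by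
        funext j
        unfold tot
        rw [hz]
        simp only [List.count_append, List.count_cons, beq_iff_eq, Prod.mk.injEq,
          Bool.true_eq_false, Bool.false_eq_true, and_true, and_false, if_false]
        by_cases hj : i = j
        · simp only [hj, if_true]
          omega
        · simp only [hj, if_false]
      rw [this]
      exact hP
  | d12 q i q' h =>
    obtain ⟨rfl, hβ⟩ := htok trivial
    obtain ⟨-, hN, hP⟩ := hG
    refine Or.inl ⟨w, .d2 q i q', z, hβ, h, ?_⟩
    rcases hN with hN | hN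
    · left
      refine ⟨hN, _, hP, rfl, Or.inr ⟨rfl, ?_⟩⟩
      rw [tot_of_NL hN]
    · right
      exact ⟨hN, hP⟩
  | unlock q i q' h =>
    obtain ⟨z1, z2, hz, hβ⟩ := hctr (i, true) rfl
    have ht : t = .d2 q i q' := by
      by_contra hne
      exact hmem t (mem_fs.2 ⟨hTt, hne⟩) (Or.inl rfl)
    subst ht
    obtain ⟨-, hN⟩ := hG
    have hiz : (i, true) ∈ z := by
      rw [hz]
      simp
    obtain ⟨hO, hP⟩ : OL i z ∧ Path true δ q0 (fun _ => 0) w q (tot z) := by
      rcases hN with hN | hN
      · exact absurd hiz (hN.1 i)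
      · exact hN
    have h5 := hO.1
    rw [hz, List.count_append, List.count_cons_self] at h5
    have h6 : (i, true) ∉ z1 ++ z2 := by
      rw [← List.count_eq_zero, List.count_append]
      omega
    have hN' : NL (z1 ++ z2) := by
      intro j hj
      by_cases hji : j = i
      · subst hji
        exact h6 hj
      · apply hO.2 j hji
        rw [hz]
        rw [List.mem_append] at hj ⊢
        rcases hj with hj | hj
        · exact Or.inl hj
        · exact Or.inr (List.mem_cons_of_mem _ hj)
    have h7 : ∀ j, cC (z1 ++ z2) j = z.count (j, false) := by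
      intro j
      unfold cC
      rw [hz, List.count_append, List.count_append, List.count_cons_of_ne (by simp)]
    refine Or.inl ⟨w, .d2 q i q', z1 ++ z2, ?_, h, Or.inl ⟨hN', _, hP, rfl, Or.inl ⟨?_, ?_⟩⟩⟩
    · rw [hβ]
      simp [frm]
    · unfold tot
      rw [hO.1]
      omega
    · funext j
      rw [h7]
      by_cases hji : j = i
      · subst hji
        rw [Function.update_self]
        unfold tot
        rw [hO.1]
        omega
      · rw [Function.update_of_ne hji]
        unfold tot
        rw [List.count_eq_zero_of_not_mem (hO.2 j hji), add_zero]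
  | dfin q i q' h =>
    obtain ⟨rfl, hβ⟩ := htok trivial
    obtain ⟨-, hN⟩ := hG
    have hi : (i, true) ∉ z := fun hi => hmem _ (mem_fs.2 rfl) (Or.inr ⟨_, hi, rfl⟩)
    obtain ⟨hN', s, hP, hE⟩ : NL z ∧ ∃ s, Path true δ q0 (fun _ => 0) w q s ∧
        ExecO true (.dec i : Op T K) s [] (cC z) := by
      rcases hN with hN | hN
      · exact hN
      · have := hN.1.1
        rw [List.count_eq_zero_of_not_mem hi] at this
        exact absurd this (by norm_num)
    refine Or.inl ⟨w, .st q', z, hβ, hN', ?_⟩
    have := path_snoc hP h hE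
    rwa [List.append_nil] at this
  | fin =>
    obtain ⟨rfl, hβ⟩ := htok trivial
    obtain ⟨hN, hP⟩ := hG
    have hz : z = [] := by
      rw [List.eq_nil_iff_forall_not_mem]
      intro p hp
      exact hmem _ (mem_fs.2 (not_tok_cs p)) (Or.inr ⟨p, hp, rfl⟩)
    subst hz
    refine Or.inr ⟨w, ?_, ?_⟩
    · rw [hβ]
      simp
    · exact hP

lemma step_tok {qf : Q} {δ : Set (Q × Op T K × Q)} {w : List T} {t : NT K Q}
    {z : List (K × Bool)} {x : List (Symbol T (NT K Q))} {p : NT K Q → Prop}
    (h : Ru qf δ (t, x, fs p)) (h1 : ¬ p t) (h2 : ∀ a ∈ z, ¬ p (cs a)) :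
    Step {ρ | Ru qf δ ρ} (frm w t z) (w.map Symbol.terminal ++ (x ++ z.map fun a =>
      Symbol.nonterminal (cs a))) := by
  refine ⟨w.map Symbol.terminal, z.map fun a => Symbol.nonterminal (cs a), t, x, fs p, h, ?_, ?_,
    ?_⟩
  · simp [frm]
  · simp
  · intro B hB hm
    rw [mem_fs] at hB
    rcases mem_frm.1 hm with rfl | ⟨a, ha, rfl⟩
    · exact h1 hB
    · exact h2 a ha hB

lemma step_ctr {qf : Q} {δ : Set (Q × Op T K × Q)} {w : List T} {t : NT K Q}
    {z1 z2 : List (K × Bool)} {a : K × Bool} {x : List (Symbol T (NT K Q))} {p : NT K Q → Prop}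
    (h : Ru qf δ (cs a, x, fs p)) (h1 : ¬ p t) (h2 : ∀ a' ∈ z1 ++ a :: z2, ¬ p (cs a')) :
    Step {ρ | Ru qf δ ρ} (frm w t (z1 ++ a :: z2)) (w.map Symbol.terminal ++
      Symbol.nonterminal t :: (z1.map (fun a => Symbol.nonterminal (cs a)) ++ (x ++
        z2.map fun a => Symbol.nonterminal (cs a)))) := by
  refine ⟨w.map Symbol.terminal ++ Symbol.nonterminal t ::
    z1.map (fun a => Symbol.nonterminal (cs a)), z2.map fun a => Symbol.nonterminal (cs a),
    cs a, x, fs p, h, ?_, ?_, ?_⟩
  · simp [frm]
  · simp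
  · intro B hB hm
    rw [mem_fs] at hB
    rcases mem_frm.1 hm with rfl | ⟨a', ha, rfl⟩
    · exact h1 hB
    · exact h2 a' ha hB

lemma sim {qf : Q} {δ : Set (Q × Op T K × Q)} {q q' : Q} {s s' : K → ℕ} {w : List T}
    (h : Path true δ q s w q' s') : ∀ (u : List T) (z : List (K × Bool)), NL z → cC z = s →
      ∃ z', NL z' ∧ cC z' = s' ∧ ReflTransGen (Step {ρ | Ru qf δ ρ}) (frm u (.st q) z)
        (frm (u ++ w) (.st q') z') := by
  induction h with
  | refl q s =>
    intro u z hN hz
    refine ⟨z, hN, hz, ?_⟩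
    rw [List.append_nil]
  | @step q q1 q2 o s s1 s2 w x hδ h1 h2 ih =>
    intro u z hN hz
    have key : ∃ z1, NL z1 ∧ cC z1 = s1 ∧ ReflTransGen (Step {ρ | Ru qf δ ρ})
        (frm u (.st q) z) (frm (u ++ w) (.st q1) z1) := by
      cases o with
      | nop =>
        obtain ⟨rfl, rfl⟩ := h1
        refine ⟨z, hN, hz, ReflTransGen.single ?_⟩
        have := step_tok (w := u) (z := z) (Ru.nop (qf := qf) q q1 hδ) id (fun _ _ => id)
        rwa [List.append_nil]
      | inc i =>
        obtain ⟨rfl, rfl⟩ := h1
        refine ⟨(i, false) :: z, ?_, ?_, ReflTransGen.single ?_⟩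
        · intro j hj
          rcases List.mem_cons.1 hj with hj | hj
          · simp at hj
          · exact hN j hj
        · funext j
          rw [← hz]
          unfold cC
          by_cases hj : j = i
          · subst hj
            rw [Function.update_self, List.count_cons_self]
          · rw [Function.update_of_ne hj, List.count_cons_of_ne]
            intro he
            exact hj (Prod.ext_iff.1 he).1.symm
        · have := step_tok (w := u) (z := z) (Ru.inc (qf := qf) q i q1 hδ) id (fun _ _ => id)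
          rwa [List.append_nil]
      | zero i =>
        obtain ⟨rfl, h0, rfl⟩ := h1
        refine ⟨z, hN, hz, ReflTransGen.single ?_⟩
        have := step_tok (w := u) (z := z) (Ru.zero (qf := qf) q i q1 hδ) (by simp) ?_
        · rwa [List.append_nil]
        · intro a ha he
          have : a = (i, false) := cs_inj he
          subst this
          rw [← hz] at h0
          unfold cC at h0
          rw [List.count_eq_zero] at h0
          exact h0 ha
      | out c =>
        obtain ⟨rfl, rfl⟩ := h1
        refine ⟨z, hN, hz, ReflTransGen.single ?_⟩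
        have := step_tok (w := u) (z := z) (Ru.out (qf := qf) q c q1 hδ) id (fun _ _ => id)
        simpa [frm] using this
      | dec i =>
        obtain ⟨rfl, h1⟩ := h1
        rw [List.append_nil]
        have e1 : Step {ρ | Ru qf δ ρ} (frm u (.st q) z) (frm u (.d1 q i q1) z) :=
          step_tok (w := u) (z := z) (Ru.dec (qf := qf) q i q1 hδ) id (fun _ _ => id)
        have e3 : ∀ z, Step {ρ | Ru qf δ ρ} (frm u (.d1 q i q1) z) (frm u (.d2 q i q1) z) :=
          fun z => step_tok (w := u) (z := z) (Ru.d12 (qf := qf) q i q1 hδ) id (fun _ _ => id)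
        have e5 : ∀ z, (i, true) ∉ z →
            Step {ρ | Ru qf δ ρ} (frm u (.d2 q i q1) z) (frm u (.st q1) z) := by
          intro z hz
          refine step_tok (w := u) (z := z) (Ru.dfin (qf := qf) q i q1 hδ) (by simp) ?_
          intro a ha he
          have : a = (i, true) := cs_inj he
          subst this
          exact hz ha
        rcases h1 with ⟨h3, h4⟩ | ⟨-, h4⟩
        · have hmem : (i, false) ∈ z := by
            rw [← hz] at h3
            exact List.count_pos_iff.1 h3
          obtain ⟨z1, z2, rfl⟩ := List.append_of_mem hmem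
          have hN' : NL (z1 ++ z2) := by
            intro j hj
            apply hN j
            rw [List.mem_append] at hj ⊢
            rcases hj with hj | hj
            · exact Or.inl hj
            · exact Or.inr (List.mem_cons_of_mem _ hj)
          refine ⟨z1 ++ z2, hN', ?_, ?_⟩
          · rw [h4, ← hz]
            funext j
            unfold cC
            by_cases hj : j = i
            · subst hj
              rw [Function.update_self, List.count_append, List.count_append,
                List.count_cons_self]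
              omega
            · rw [Function.update_of_ne hj, List.count_append, List.count_append,
                List.count_cons_of_ne]
              intro he
              exact hj (Prod.ext_iff.1 he).1.symm
          · have e2 : Step {ρ | Ru qf δ ρ} (frm u (.d1 q i q1) (z1 ++ (i, false) :: z2))
                (frm u (.d1 q i q1) (z1 ++ (i, true) :: z2)) := by
              have := step_ctr (w := u) (t := .d1 q i q1) (z1 := z1) (z2 := z2) (a := (i, false))
                (Ru.lock (qf := qf) q i q1 hδ) ?_ ?_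
              · simpa [frm, cs] using this
              · rintro (⟨-, h⟩ | h)
                · exact h rfl
                · cases h
              · rintro a ha (⟨h, -⟩ | h)
                · exact not_tok_cs a h
                · have : a = (i, true) := cs_inj h
                  subst this
                  exact hN i ha
            have e4 : Step {ρ | Ru qf δ ρ} (frm u (.d2 q i q1) (z1 ++ (i, true) :: z2))
                (frm u (.d2 q i q1) (z1 ++ z2)) := by
              have := step_ctr (w := u) (t := .d2 q i q1) (z1 := z1) (z2 := z2) (a := (i, true))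
                (Ru.unlock (qf := qf) q i q1 hδ) ?_ ?_
              · simpa [frm, cs] using this
              · rintro ⟨-, h⟩
                exact h rfl
              · rintro a ha ⟨h, -⟩
                exact not_tok_cs a h
            exact ((((ReflTransGen.single e1).tail e2).tail (e3 _)).tail e4).tail
              (e5 _ (hN' i))
        · refine ⟨z, hN, by rw [h4, hz], ?_⟩
          exact ((ReflTransGen.single e1).tail (e3 _)).tail (e5 _ (hN i))
    obtain ⟨z1, hN1, hz1, hr1⟩ := key
    obtain ⟨z2, hN2, hz2, hr2⟩ := ih (u ++ w) z1 hN1 hz1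
    refine ⟨z2, hN2, hz2, ?_⟩
    rw [← List.append_assoc]
    exact hr1.trans hr2

end

theorem main : PropG2 := by
  intro T K Q _ _ _ q0 qf δ hδ
  refine ⟨NT K Q, inferInstance, .st q0, {ρ | Ru qf δ ρ}, ru_finite qf δ hδ, fun w => ?_⟩
  constructor
  · intro h
    have h0 : Inv q0 qf δ [Symbol.nonterminal (.st q0 : NT K Q)] := by
      refine Or.inl ⟨[], .st q0, [], rfl, ?_, Pool.Agent.W937.FG.Path.refl _ _⟩
      intro j hj
      cases hj
    have h1 : Inv q0 qf δ (w.map (Symbol.terminal (N := NT K Q))) := by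
      unfold Gen at h
      generalize w.map (Symbol.terminal (N := NT K Q)) = β at h ⊢
      induction h with
      | refl => exact h0
      | tail _ hs ih => exact inv_step ih hs
    rcases h1 with ⟨w', t, z, h2, -⟩ | ⟨w', h2, h3⟩
    · exfalso
      have : Symbol.nonterminal t ∈ w.map (Symbol.terminal (N := NT K Q)) := by
        rw [h2]
        exact mem_frm.2 (Or.inl rfl)
      obtain ⟨a, -, ha⟩ := List.mem_map.1 this
      cases ha
    · have : w = w' := by
        refine List.map_injective_iff.2 ?_ h2
        intro a b hab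
        exact Symbol.terminal.inj hab
      rw [this]
      exact h3
  · intro h
    obtain ⟨z, hN, hz, hr⟩ := sim (qf := qf) h [] [] (by intro j hj; cases hj) rfl
    unfold Gen
    have hz' : z = [] := by
      rw [List.eq_nil_iff_forall_not_mem]
      rintro ⟨i, b⟩ hp
      cases b with
      | true => exact hN i hp
      | false =>
        have := congrFun hz i
        unfold cC at this
        rw [List.count_eq_zero] at this
        exact this hp
    subst hz'
    refine ReflTransGen.tail hr ?_
    have := step_tok (w := [] ++ w) (z := []) (Ru.fin (qf := qf) (δ := δ)) (by simp [Tok])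
      (fun a ha => by cases ha)
    simpa using this

end Pool.Agent.W924.FG
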